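import Pool.Agent.H97R2.LPB.Props

/-! Task CONV: symmetry and shape of the potential. -/

open Polynomial Filter Topology MeasureTheory Pool.Agent.H337R2 Pool.Agent.LP

namespace Pool.Agent.LPB.H676CONV

theorem Psi_neg (u : ℝ) : Psi (-u) = - Psi u := by
  unfold Psi
  rw [Real.log_neg_eq_log]
  ring

theorem Ux_neg (v : ℝ) : Ux (-v) = Ux v := by
  unfold Ux
  rw [show -v + 15 / 16 = -(v - 15 / 16) by ring, show -v - 15 / 16 = -(v + 15 / 16) by ring,
    show -v - 3 = -(v + 3) by ring, show -v + 3 = -(v - 3) by ring]
  simp only [Psi_neg]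
  ring

theorem Pc_neg (u v : ℝ) : Pc u (-v) = Pc u v := by
  unfold Pc
  rw [div_neg, Real.arctan_neg, neg_sq]
  ring

theorem Phi_neg (v : ℝ) : Phi (-v) = Phi v := by
  unfold Phi
  rw [Pc_neg, Pc_neg, abs_neg]

theorem hasDerivAt_at (c : ℝ) {v : ℝ} (hv : 0 < v) :
    HasDerivAt (fun t : ℝ => Real.arctan (c / t)) (-(c / (c ^ 2 + v ^ 2))) v := by
  have h1 : HasDerivAt (fun t : ℝ => c / t) (-(c / v ^ 2)) v := by
    have := (hasDerivAt_inv hv.ne').const_mul c
    refine (this.congr_of_eventuallyEq (Eventually.of_forall fun t => ?_)).congr_deriv ?_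
    · exact div_eq_mul_inv c t
    · field_simp
  refine (h1.arctan).congr_deriv ?_
  have : 0 < c ^ 2 + v ^ 2 := by positivity
  field_simp
  try ring

theorem hasDerivAt_Pc (u : ℝ) {v : ℝ} (hv : 0 < v) :
    HasDerivAt (fun t : ℝ => Pc u t) (Real.arctan (u / v)) v := by
  have hpos : 0 < u ^ 2 + v ^ 2 := by positivity
  have h1 : HasDerivAt (fun t : ℝ => u ^ 2 + t ^ 2) (2 * v) v := by
    have := ((hasDerivAt_id v).pow 2).const_add (u ^ 2)
    refine this.congr_deriv ?_
    simp
  have h2 := (h1.log hpos.ne').const_mul (u / 2)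
  have h3 := (hasDerivAt_id v).mul (hasDerivAt_at u hv)
  have h4 := (h2.sub_const u).add h3
  refine (h4.congr_of_eventuallyEq (Eventually.of_forall fun t => ?_)).congr_deriv ?_
  · simp [Pc]
  · simp only [id]
    field_simp
    ring

theorem continuous_Pc {u : ℝ} (hu : 0 < u) : Continuous (fun t : ℝ => Pc u t) := by
  unfold Pc
  refine Continuous.add (Continuous.sub (Continuous.mul continuous_const ?_) continuous_const) ?_
  · refine Continuous.log (by fun_prop) ?_
    intro x; positivity
  · rw [continuous_iff_continuousAt]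
    intro x
    by_cases hx : x = 0
    · subst hx
      have h00 : (fun t : ℝ => t * Real.arctan (u / t)) 0 = 0 := by simp
      unfold ContinuousAt
      rw [h00]
      have : Tendsto (fun t : ℝ => |t| * (Real.pi / 2)) (𝓝 0) (𝓝 0) := by
        have : Continuous (fun t : ℝ => |t| * (Real.pi / 2)) := by fun_prop
        have h := this.tendsto 0
        simpa using h
      refine squeeze_zero_norm (fun t => ?_) this
      rw [Real.norm_eq_abs, abs_mul]
      refine mul_le_mul_of_nonneg_left ?_ (abs_nonneg _)
      rw [abs_le]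
      exact ⟨(Real.neg_pi_div_two_lt_arctan _).le, (Real.arctan_lt_pi_div_two _).le⟩
    · refine continuousAt_id.mul ?_
      refine Real.continuous_arctan.continuousAt.comp ?_
      exact continuousAt_const.div continuousAt_id hx

/-- the function -/
noncomputable def PP (t : ℝ) : ℝ := 2 * Pc 1 t - Pc 5 t - Real.pi * t

theorem hasDerivAt_PP {v : ℝ} (hv : 0 < v) :
    HasDerivAt (fun t : ℝ => 2 * Pc 1 t - Pc 5 t - Real.pi * t)
    (2 * Real.arctan (1 / v) - Real.arctan (5 / v) - Real.pi) v := by
  have h := (((hasDerivAt_Pc 1 hv).const_mul 2).sub (hasDerivAt_Pc 5 hv)).sub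
    ((hasDerivAt_id v).const_mul Real.pi)
  refine h.congr_deriv ?_
  simp

theorem hasDerivAt_PP' {v : ℝ} (hv : 0 < v) :
    HasDerivAt (fun t : ℝ => 2 * Real.arctan (1 / t) - Real.arctan (5 / t) - Real.pi)
    (-2 / (1 + v ^ 2) + 5 / (25 + v ^ 2)) v := by
  have h := (((hasDerivAt_at 1 hv).const_mul 2).sub (hasDerivAt_at 5 hv)).sub_const Real.pi
  refine h.congr_deriv ?_
  have h1 : 0 < 1 + v ^ 2 := by positivity
  have h2 : 0 < 25 + v ^ 2 := by positivity
  norm_num
  ring

theorem continuous_PP : Continuous (fun t : ℝ => 2 * Pc 1 t - Pc 5 t - Real.pi * t) := by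
  have h1 := continuous_Pc (u := 1) one_pos
  have h5 := continuous_Pc (u := 5) (by norm_num)
  fun_prop

end Pool.Agent.LPB.H676CONV

namespace Pool.Agent.LPB

open H676CONV

theorem V0_even : S_even := by
  intro v
  rw [Phi_neg, Ux_neg]

theorem V0_shape : S_shape := by
  refine ⟨fun v hv => hasDerivAt_PP hv, ?_, ?_⟩
  · refine AntitoneOn.concaveOn_of_deriv (convex_Icc _ _) continuous_PP.continuousOn ?_ ?_
    · rw [interior_Icc]
      intro x hx
      exact (hasDerivAt_PP hx.1).differentiableAt.differentiableWithinAt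
    · rw [interior_Icc]
      have hant : AntitoneOn
          (fun t : ℝ => 2 * Real.arctan (1 / t) - Real.arctan (5 / t) - Real.pi)
          (Set.Ioo 0 (387 / 100)) := by
        refine antitoneOn_of_deriv_nonpos (convex_Ioo _ _) ?_ ?_ ?_
        · intro x hx
          exact (hasDerivAt_PP' hx.1).continuousAt.continuousWithinAt
        · rw [interior_Ioo]
          intro x hx
          exact (hasDerivAt_PP' hx.1).differentiableAt.differentiableWithinAt
        · rw [interior_Ioo]
          intro x hx
          rw [(hasDerivAt_PP' hx.1).deriv]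
          have h1 : 0 < 1 + x ^ 2 := by positivity
          have h2 : 0 < 25 + x ^ 2 := by positivity
          have h3 : x ^ 2 ≤ 15 := by nlinarith [hx.1, hx.2]
          have h4 : -2 / (1 + x ^ 2) + 5 / (25 + x ^ 2) =
              (3 * x ^ 2 - 45) / ((1 + x ^ 2) * (25 + x ^ 2)) := by
            field_simp
            ring
          rw [h4]
          exact div_nonpos_of_nonpos_of_nonneg (by linarith) (by positivity)
      intro x hx y hy hxy
      rw [(hasDerivAt_PP hx.1).deriv, (hasDerivAt_PP hy.1).deriv]
      exact hant hx hy hxy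
  · refine MonotoneOn.convexOn_of_deriv (convex_Ici _) continuous_PP.continuousOn ?_ ?_
    · rw [interior_Ici]
      intro x hx
      have hx0 : (0 : ℝ) < x := lt_trans (by norm_num) hx
      exact (hasDerivAt_PP hx0).differentiableAt.differentiableWithinAt
    · rw [interior_Ici]
      have hmono : MonotoneOn
          (fun t : ℝ => 2 * Real.arctan (1 / t) - Real.arctan (5 / t) - Real.pi)
          (Set.Ioi (388 / 100)) := by
        refine monotoneOn_of_deriv_nonneg (convex_Ioi _) ?_ ?_ ?_
        · intro x hx
          have hx0 : (0 : ℝ) < x := lt_trans (by norm_num) hx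
          exact (hasDerivAt_PP' hx0).continuousAt.continuousWithinAt
        · rw [interior_Ioi]
          intro x hx
          have hx0 : (0 : ℝ) < x := lt_trans (by norm_num) hx
          exact (hasDerivAt_PP' hx0).differentiableAt.differentiableWithinAt
        · rw [interior_Ioi]
          intro x hx
          have hx' : (388 / 100 : ℝ) < x := hx
          have hx0 : (0 : ℝ) < x := lt_trans (by norm_num) hx
          rw [(hasDerivAt_PP' hx0).deriv]
          have h1 : 0 < 1 + x ^ 2 := by positivity
          have h2 : 0 < 25 + x ^ 2 := by positivity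
          have h3 : 15 ≤ x ^ 2 := by nlinarith
          have h4 : -2 / (1 + x ^ 2) + 5 / (25 + x ^ 2) =
              (3 * x ^ 2 - 45) / ((1 + x ^ 2) * (25 + x ^ 2)) := by
            field_simp
            ring
          rw [h4]
          exact div_nonneg (by linarith) (by positivity)
      intro x hx y hy hxy
      have hx0 : (0 : ℝ) < x := lt_trans (by norm_num) hx
      have hy0 : (0 : ℝ) < y := lt_trans (by norm_num) hy
      rw [(hasDerivAt_PP hx0).deriv, (hasDerivAt_PP hy0).deriv]
      exact hmono hx hy hxy

end Pool.Agent.LPB
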